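import Pool.Agent.Y691.ST.IndDefs

/-!
# Cyclic subextensions over fields with a real place
-/

set_option autoImplicit false

namespace Pool.Agent.Y951.SE

open Pool.Agent.Y691.ST

section general

variable {H : Type} [Group H]

/-- The character of the representation `ρ`. -/
noncomputable def character {n : ℕ} (ρ : H →* Matrix (Fin n) (Fin n) ℂ) : H → ℂ :=
  fun u => (ρ u).trace

/-- Every linear character `χ` of 2-power order of the group `H` which is trivial on the subgroup `N` has
order at most `2^(k+1)`. (For a normal subgroup `N`: the group `H / N` has no cyclic quotient of order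
`2^(k+2)`.) -/
def NoQuotient (N : Subgroup H) (k : ℕ) : Prop :=
  ∀ χ : H →* ℂˣ, N ≤ χ.ker → (∃ j : ℕ, χ ^ 2 ^ j = 1) → χ ^ 2 ^ (k + 1) = 1

/-- If a subgroup `V` of `H` contains the kernel of `ρ` and an element with the property `R`, then
`V / ker ρ` has no cyclic quotient of order `2^(k+2)`. -/
def NoCyclic {n : ℕ} (R : H → Prop) (ρ : H →* Matrix (Fin n) (Fin n) ℂ) (k : ℕ) : Prop :=
  ∀ V : Subgroup H, ρ.ker ≤ V → (∃ u ∈ V, R u) → NoQuotient (ρ.ker.subgroupOf V) k

/-- The group `ρ(H)` has no element of order divisible by `2^(k+2)`. -/
def NoElement {n : ℕ} (ρ : H →* Matrix (Fin n) (Fin n) ℂ) (k : ℕ) : Prop :=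
  ∀ u, ¬ 2 ^ (k + 2) ∣ orderOf (ρ u)

end general

/-- The subgroup `U` of `G` is open and the representation `ρ` of `U` has an open kernel. For `G = GalQ`:
`U` corresponds to a number field `K = Qbar^U` and `ρ` is a faithful representation of `Gal(L / K)` for
a finite Galois extension `L` of `K`, and every faithful representation of `Gal(L / K)` is of this
form. -/
def IsOpenRep {G : Type} [Group G] [TopologicalSpace G] {U : Subgroup G} {n : ℕ}
    (ρ : U →* Matrix (Fin n) (Fin n) ℂ) : Prop :=
  IsOpen (U : Set G) ∧ IsOpen (ρ.ker : Set U)

/-- Let `K = Qbar^U` and let `L` be the finite Galois extension of `K` cut out by the representation `ρ`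
of `U`. The property says that for every field `K₁` between `K` and `L` with a real place every linear
character of 2-power order of `Gal(L / K₁)` has order at most `2^(k+1)`, that is, there is no cyclic
extension `K₂ / K₁` of degree `2^(k+2)` with `K ⊆ K₁ ⊆ K₂ ⊆ L` such that `K₁` has a real place. (The
subgroup `V` in the definition of `NoCyclic` is the absolute Galois group of `K₁`; the field `K₁` has a
real place if and only if `V` contains the complex conjugation of an embedding.) -/
def NoRealCyclic {U : Subgroup GalQ} {n : ℕ} (ρ : U →* Matrix (Fin n) (Fin n) ℂ) (k : ℕ) : Prop :=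
  NoCyclic (fun u : U => IsConjugation (u : GalQ)) ρ k

end Pool.Agent.Y951.SE
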