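import Pool.Agent.Y691.ST.Fin

/-!
# Induced linear characters of 2-power order in groups with a real quadratic sign
-/

set_option autoImplicit false

namespace Pool.Agent.Y951.SE

open Pool.Agent.Y144.DL Pool.Agent.Y691.ST

variable {Q : Type} [Group Q]

/-- the kernel of a linear character of a subgroup, as a subgroup of the group -/
def kerS (K : Subgroup Q) (ε : K →* ℂˣ) : Subgroup Q := ε.ker.map K.subtype

lemma mem_kerS {K : Subgroup Q} {ε : K →* ℂˣ} {x : Q} :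
    x ∈ kerS K ε ↔ ∃ h : x ∈ K, ε ⟨x, h⟩ = 1 := by
  constructor
  · rintro ⟨y, hy, rfl⟩
    exact ⟨y.2, hy⟩
  · rintro ⟨h, h1⟩
    exact ⟨⟨x, h⟩, h1, rfl⟩

lemma kerS_le (K : Subgroup Q) (ε : K →* ℂˣ) : kerS K ε ≤ K := by
  intro x hx
  exact (mem_kerS.1 hx).1

/-- the restriction of `χ` to the kernel of `ε` -/
def resS (K : Subgroup Q) (ε χ : K →* ℂˣ) : kerS K ε →* ℂˣ :=
  χ.comp (Subgroup.inclusion (kerS_le K ε))

lemma unit_cases {z : ℂˣ} (h : z ^ 2 = 1) : z = 1 ∨ z = -1 := by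
  have h1 : (z : ℂ) * z = 1 := by
    rw [← Units.val_mul, ← pow_two, h, Units.val_one]
  rcases mul_self_eq_one_iff.mp h1 with h2 | h2
  · left
    exact Units.ext h2
  · right
    exact Units.ext (by rw [h2]; simp)

lemma neg_one_ne : (-1 : ℂˣ) ≠ 1 := by
  intro h
  have h1 := congrArg Units.val h
  norm_num at h1

variable [Finite Q]

lemma card_kerS (K : Subgroup Q) (ε : K →* ℂˣ) (h2 : ε ^ 2 = 1) {x₀ : K} (hx₀ : ε x₀ ≠ 1) :
    Nat.card K = 2 * Nat.card (kerS K ε) := by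
  have hval : ∀ x : K, ε x = 1 ∨ ε x = -1 := by
    intro x
    refine unit_cases ?_
    have := congrArg (fun f : K →* ℂˣ => f x) h2
    exact this
  have h0 : ε x₀ = -1 := (hval x₀).resolve_left hx₀
  have hidx : ε.ker.index = 2 := by
    rw [Subgroup.index_eq_two_iff]
    refine ⟨x₀, fun b => ?_⟩
    rw [MonoidHom.mem_ker, MonoidHom.mem_ker, map_mul, h0]
    rcases hval b with hb | hb
    · rw [hb]
      right
      exact ⟨rfl, by rw [one_mul]; exact neg_one_ne⟩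
    · rw [hb]
      left
      refine ⟨by simp, neg_one_ne⟩
  have h3 := ε.ker.card_mul_index
  rw [hidx] at h3
  have h4 : Nat.card (kerS K ε) = Nat.card ε.ker := by
    unfold kerS
    exact Subgroup.card_map_of_injective K.subtype_injective
  rw [h4, ← h3]
  ring

/-- induction from the kernel of a quadratic character -/
theorem ind_kerS (K : Subgroup Q) (ε χ : K →* ℂˣ) (h2 : ε ^ 2 = 1) {x₀ : K} (hx₀ : ε x₀ ≠ 1) :
    ind (kerS K ε) (resS K ε χ) = ind K χ + ind K (χ * ε) := by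
  classical
  have := Fintype.ofFinite Q
  have hcard := card_kerS K ε h2 hx₀
  have hval : ∀ x : K, ε x = 1 ∨ ε x = -1 := by
    intro x
    refine unit_cases ?_
    have := congrArg (fun f : K →* ℂˣ => f x) h2
    exact this
  have hext : ext K χ + ext K (χ * ε) = (2 : ℂ) • ext (kerS K ε) (resS K ε χ) := by
    funext g
    rw [Pi.add_apply, Pi.smul_apply, smul_eq_mul]
    by_cases hg : g ∈ K
    · rw [ext_mem K χ hg, ext_mem K _ hg]
      rcases hval ⟨g, hg⟩ with h | h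
      · rw [ext_mem _ _ (mem_kerS.2 ⟨hg, h⟩), MonoidHom.mul_apply, h, mul_one]
        show (_ : ℂ) + _ = 2 * ((χ ⟨g, hg⟩ : ℂˣ) : ℂ)
        ring
      · rw [ext_not_mem (kerS K ε) _, MonoidHom.mul_apply, h]
        · simp
        · intro h3
          obtain ⟨h4, h5⟩ := mem_kerS.1 h3
          rw [h] at h5
          exact neg_one_ne h5
    · rw [ext_not_mem K χ hg, ext_not_mem K _ hg, ext_not_mem (kerS K ε) _
        (fun h => hg (kerS_le K ε h))]
      simp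
  unfold ind
  rw [← avg_add, hext]
  funext g
  rw [avg_eq, avg_eq, hcard]
  have hc : ((Nat.card (kerS K ε) : ℕ) : ℂ) ≠ 0 := by
    rw [Nat.cast_ne_zero]
    exact Nat.card_pos.ne'
  simp only [Pi.smul_apply, smul_eq_mul]
  rw [← Finset.mul_sum]
  push_cast
  field_simp

section

variable {A : Type} [CommGroup A] (Y : (Q → ℂ) → A) {S : Set Q}

/-- the exponent of the value at an induced linear character of 2-power order -/
theorem lin_pow (hY : ∀ θ θ', IsChar θ → IsChar θ' → Y (θ + θ') = Y θ * Y θ')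
    (hQ : ∀ (K : Subgroup Q) (χ : K →* ℂˣ), χ ^ 2 = 1 → Y (ind K χ) = 1)
    (hG : ∀ (K : Subgroup Q) (χ : K →* ℂˣ), (∀ s ∈ S, s ∉ K) → Y (ind K χ) = 1)
    (hsq : ∀ s ∈ S, s * s = 1) (ε₀ : Q →* ℂˣ) (hε : ∀ g, ε₀ g ^ 2 = 1)
    (hεS : ∀ s ∈ S, ε₀ s = -1) :
    ∀ (k : ℕ) (K : Subgroup Q) (χ : K →* ℂˣ), χ ^ 2 ^ (k + 1) = 1 → Y (ind K χ) ^ 2 ^ k = 1 := by
  intro k
  induction k with
  | zero =>
    intro K χ hχ
    rw [pow_zero, pow_one]
    refine hQ K χ ?_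
    simpa using hχ
  | succ k ih =>
    intro K χ hχ
    by_cases hbad : ∃ s ∈ S, s ∈ K
    swap
    · push Not at hbad
      rw [hG K χ hbad, one_pow]
    obtain ⟨s, hs, hsK⟩ := hbad
    by_cases hη : χ ^ 2 ^ (k + 1) = 1
    · rw [pow_succ 2 k, pow_mul, ih K χ hη, one_pow]
    -- a quadratic character which is `-1` at the elements of `S`
    have neg : ∀ δ : K →* ℂˣ, δ ^ 2 = 1 → (∀ t ∈ S, ∀ ht : t ∈ K, δ ⟨t, ht⟩ = -1) →
        ∀ ψ : K →* ℂˣ, Y (ind K ψ) * Y (ind K (ψ * δ)) = 1 := by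
      intro δ hδ hδS ψ
      have h1 : δ ⟨s, hsK⟩ ≠ 1 := by
        rw [hδS s hs hsK]
        exact neg_one_ne
      rw [← hY _ _ (isChar_ind K _) (isChar_ind K _), ← ind_kerS K δ ψ hδ h1]
      refine hG _ _ fun t ht htK => ?_
      obtain ⟨h3, h4⟩ := mem_kerS.1 htK
      rw [hδS t ht h3] at h4
      exact neg_one_ne h4
    set η : K →* ℂˣ := χ ^ 2 ^ (k + 1) with hηdef
    have hη2 : η ^ 2 = 1 := by
      rw [hηdef, ← pow_mul, ← pow_succ]
      exact hχ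
    set ε : K →* ℂˣ := ε₀.comp K.subtype with hεdef
    have hε2 : ε ^ 2 = 1 := by
      ext x
      have := hε (x : Q)
      exact congrArg Units.val this
    have hεt : ∀ t ∈ S, ∀ ht : t ∈ K, ε ⟨t, ht⟩ = -1 := fun t ht _ => hεS t ht
    have hηt : ∀ t ∈ S, ∀ ht : t ∈ K, η ⟨t, ht⟩ = 1 := by
      intro t ht htK
      have h1 : (⟨t, htK⟩ : K) ^ 2 = 1 := Subtype.ext (by
        rw [Subgroup.coe_pow, pow_two]
        exact hsq t ht)
      rw [hηdef, MonoidHom.pow_apply, pow_succ' 2 k, pow_mul, ← map_pow, h1, map_one, one_pow]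
    have h1 := neg ε hε2 hεt (χ * η)
    have hηε : (η * ε) ^ 2 = 1 := by
      refine MonoidHom.ext fun x => ?_
      have h6 : η x ^ 2 = 1 := congrArg (fun f : K →* ℂˣ => f x) hη2
      have h7 : ε x ^ 2 = 1 := congrArg (fun f : K →* ℂˣ => f x) hε2
      rw [MonoidHom.pow_apply, MonoidHom.mul_apply, mul_pow, h6, h7, one_mul]
      rfl
    have h2 := neg (η * ε) hηε (by
      intro t ht htK
      rw [MonoidHom.mul_apply, hηt t ht htK, hεt t ht htK, one_mul]) χ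
    have hass : χ * η * ε = χ * (η * ε) := by
      refine MonoidHom.ext fun x => ?_
      rw [MonoidHom.mul_apply, MonoidHom.mul_apply, MonoidHom.mul_apply, MonoidHom.mul_apply,
        mul_assoc]
    rw [hass] at h1
    have h3 : Y (ind K (χ * η)) = Y (ind K χ) := by
      rw [← h2] at h1
      exact mul_right_cancel h1
    obtain ⟨x₀, hx₀⟩ : ∃ x₀ : K, η x₀ ≠ 1 := by
      by_contra hcon
      push Not at hcon
      exact hη (MonoidHom.ext hcon)
    have h4 : Y (ind (kerS K η) (resS K η χ)) = Y (ind K χ) ^ 2 := by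
      rw [ind_kerS K η χ hη2 hx₀, hY _ _ (isChar_ind K _) (isChar_ind K _), h3, pow_two]
    have h5 := ih (kerS K η) (resS K η χ) (by
      ext x
      have h6 := mem_kerS.1 x.2
      obtain ⟨h7, h8⟩ := h6
      exact congrArg Units.val h8)
    rw [h4, ← pow_mul, ← pow_succ'] at h5
    exact h5

end

section

variable {M M₁ : Subgroup Q} [M.Normal] [M₁.Normal] {S : Set Q}
variable {A : Type} [CommGroup A] (Y : (Q → ℂ) → A)

/-- the exponent of the value at a character of a quotient -/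
theorem fin_pow (hS : Sig M M₁ S) (hY : ∀ θ θ', IsChar θ → IsChar θ' → Y (θ + θ') = Y θ * Y θ')
    (hQ : ∀ (K : Subgroup Q) (χ : K →* ℂˣ), χ ^ 2 = 1 → Y (ind K χ) = 1)
    (hG : ∀ (K : Subgroup Q) (χ : K →* ℂˣ), (∀ s ∈ S, s ∉ K) → Y (ind K χ) = 1)
    (ε₀ : Q →* ℂˣ) (hε : ∀ g, ε₀ g ^ 2 = 1) (hεS : ∀ s ∈ S, ε₀ s = -1)
    {θ : Q ⧸ M → ℂ} (hθ : IsChar θ) {k : ℕ}
    (hb : ∀ (K : Subgroup Q) (χ : K →* ℂˣ), (∃ s ∈ S, s ∈ K) → (∀ x : K, (x : Q) ∈ M → χ x = 1) →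
      (∃ j : ℕ, χ ^ 2 ^ j = 1) → χ ^ 2 ^ (k + 1) = 1) :
    ∃ l : ℕ, ¬ 2 ∣ l ∧ (Y (θ ∘ QuotientGroup.mk' M) ^ 2 ^ k) ^ l = 1 := by
  obtain ⟨l, hl, hlR⟩ := banaschewski_p (AddSubgroup.closure (FG (Hyp (⊥ : Subgroup Q) 2)))
    (closure_FG_mul fun H K hH hK => hyp_inf hH bot_le) 2 Nat.prime_two (fun x => by
      obtain ⟨f, hf, h⟩ := exists_FG_hyp x 2 Nat.prime_two
      exact ⟨f, AddSubgroup.subset_closure hf, h⟩)
  refine ⟨l.natAbs, fun h => hl (Int.natCast_dvd.mpr h), ?_⟩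
  have hθ' := isChar_comp (M := M) hθ
  let Y' : (Q → ℂ) → A := fun f => Y f ^ 2 ^ k
  have hY' : ∀ θ θ', IsChar θ → IsChar θ' → Y' (θ + θ') = Y' θ * Y' θ' := by
    intro θ θ' h h'
    show Y (θ + θ') ^ 2 ^ k = Y θ ^ 2 ^ k * Y θ' ^ 2 ^ k
    rw [hY _ _ h h', mul_pow]
  show Y' (θ ∘ QuotientGroup.mk' M) ^ l.natAbs = 1
  refine pow_of_mem Y' hY' hθ' (glueY (p := 2) (fun g x => isChar_conj hθ' g x) (span1 Y') ?_ _ hlR)
  intro T hT
  refine avg_mem_of_lin (M := M) (span1 Y') ?_ _ (restrict_mem M Nat.prime_two hT hθ)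
  intro K χ hK hχ
  refine mem_span1 Y' ?_
  show Y (ind K χ) ^ 2 ^ k = 1
  by_cases hbad : ∃ s ∈ S, s ∈ K
  · obtain ⟨s, hs, hsK⟩ := hbad
    obtain ⟨j, hj⟩ := pow_two_of_odd fun y hy n hn hyn => even_case hS hT hK hχ hs hsK hy hn hyn
    exact lin_pow Y hY hQ hG hS.sq ε₀ hε hεS k K χ (hb K χ ⟨s, hs, hsK⟩ hχ ⟨j, hj⟩)
  · push Not at hbad
    rw [hG K χ hbad, one_pow]

end

end Pool.Agent.Y951.SE
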