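import Pool.Agent.Y691.ST.Ind

/-!
# Transitivity of induction
-/

set_option autoImplicit false

namespace Pool.Agent.Y951.SE

open Pool.Agent.Y144.DL Pool.Agent.Y691.ST

variable {G : Type} [Group G] [TopologicalSpace G]

/-- a linear character of a subgroup of `U` as a linear character of a subgroup of `G` -/
noncomputable def up (U : Subgroup G) (V : Subgroup U) (ψ : V →* ℂˣ) : V.map U.subtype →* ℂˣ :=
  ψ.comp (V.equivMapOfInjective U.subtype U.subtype_injective).symm.toMonoidHom

lemma ext_up (U : Subgroup G) (V : Subgroup U) (ψ : V →* ℂˣ) (g : G) :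
    ext (V.map U.subtype) (up U V ψ) g = extC U (ext V ψ) g := by
  by_cases hU : g ∈ U
  · rw [extC_mem U _ hU]
    by_cases hV : (⟨g, hU⟩ : U) ∈ V
    · have h1 : g ∈ V.map U.subtype := ⟨⟨g, hU⟩, hV, rfl⟩
      rw [ext_mem _ _ h1, ext_mem V ψ hV]
      have h2 : (V.equivMapOfInjective U.subtype U.subtype_injective).symm ⟨g, h1⟩ =
          ⟨⟨g, hU⟩, hV⟩ := by
        rw [MulEquiv.symm_apply_eq]
        rfl
      show ((ψ ((V.equivMapOfInjective U.subtype U.subtype_injective).symm ⟨g, h1⟩) : ℂˣ) : ℂ) = _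
      rw [h2]
    · rw [ext_not_mem V ψ hV, ext_not_mem]
      rintro ⟨u, hu, hug⟩
      apply hV
      have : u = ⟨g, hU⟩ := Subtype.ext hug
      rwa [← this]
  · rw [extC_not_mem U _ hU, ext_not_mem]
    rintro ⟨u, hu, rfl⟩
    exact hU u.2

/-- **Induction in stages.** -/
theorem indC_indF (U : Subgroup G) [Finite (G ⧸ U)] (V : Subgroup U) [Finite (U ⧸ V)]
    (ψ : V →* ℂˣ) : indC U (indF V ψ) = indF (V.map U.subtype) (up U V ψ) := by
  classical
  have := Fintype.ofFinite (G ⧸ U)
  have := Fintype.ofFinite (U ⧸ V)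
  let E : (G ⧸ U) × (U ⧸ V) → G ⧸ V.map U.subtype := fun a =>
    ((a.1.out * ((a.2.out : U) : G) : G) : G ⧸ V.map U.subtype)
  have hE : Function.Bijective E := by
    constructor
    · rintro ⟨x, y⟩ ⟨x', y'⟩ h
      have h1 : (x.out * ((y.out : U) : G))⁻¹ * (x'.out * ((y'.out : U) : G)) ∈ V.map U.subtype :=
        QuotientGroup.eq.1 h
      obtain ⟨v, hv, hv2⟩ := h1
      have h2 : x.out⁻¹ * x'.out ∈ U := by
        have h3 : x.out⁻¹ * x'.out = ((y.out : U) : G) *
            ((x.out * ((y.out : U) : G))⁻¹ * (x'.out * ((y'.out : U) : G))) *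
            ((y'.out : U) : G)⁻¹ := by group
        rw [h3, ← hv2]
        exact U.mul_mem (U.mul_mem (y.out).2 v.2) (U.inv_mem (y'.out).2)
      have h4 := QuotientGroup.eq.2 h2
      rw [QuotientGroup.out_eq', QuotientGroup.out_eq'] at h4
      subst h4
      have h5 : (y.out : U)⁻¹ * y'.out ∈ V := by
        have h6 : (y.out : U)⁻¹ * y'.out = v := by
          apply Subtype.ext
          show ((y.out : U) : G)⁻¹ * ((y'.out : U) : G) = (v : G)
          have h7 : (v : G) = (x.out * ((y.out : U) : G))⁻¹ * (x.out * ((y'.out : U) : G)) := hv2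
          rw [h7]
          group
        rw [h6]
        exact hv
      have h8 := QuotientGroup.eq.2 h5
      rw [QuotientGroup.out_eq', QuotientGroup.out_eq'] at h8
      rw [h8]
    · intro z
      induction z using QuotientGroup.induction_on with
      | H g =>
        have h1 : ((g : G ⧸ U)).out⁻¹ * g ∈ U := by
          rw [← QuotientGroup.eq, QuotientGroup.out_eq']
        refine ⟨((g : G ⧸ U), ((⟨_, h1⟩ : U) : U ⧸ V)), ?_⟩
        refine QuotientGroup.eq.2 ?_
        have h2 : (((⟨_, h1⟩ : U) : U ⧸ V)).out⁻¹ * (⟨_, h1⟩ : U) ∈ V := by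
          rw [← QuotientGroup.eq, QuotientGroup.out_eq']
        refine ⟨_, h2, ?_⟩
        show (((((⟨_, h1⟩ : U) : U ⧸ V)).out : U) : G)⁻¹ * (((g : G ⧸ U)).out⁻¹ * g) = _
        group
  let E' := Equiv.ofBijective E hE
  have : Finite (G ⧸ V.map U.subtype) := Finite.of_equiv _ E'
  have := Fintype.ofFinite (G ⧸ V.map U.subtype)
  funext g
  unfold indC indF
  rw [finsum_eq_sum_of_fintype, finsum_eq_sum_of_fintype, ← Fintype.sum_equiv E' (fun a =>
    ext (V.map U.subtype) (up U V ψ) ((a.1.out * ((a.2.out : U) : G))⁻¹ * g *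
      (a.1.out * ((a.2.out : U) : G)))) _ ?_, Fintype.sum_prod_type]
  · refine Finset.sum_congr rfl fun x _ => ?_
    by_cases hx : x.out⁻¹ * g * x.out ∈ U
    · rw [extC_mem U _ hx, finsum_eq_sum_of_fintype]
      refine Finset.sum_congr rfl fun y _ => ?_
      simp only
      have h1 : (x.out * ((y.out : U) : G))⁻¹ * g * (x.out * ((y.out : U) : G)) =
          (((y.out⁻¹ * ⟨x.out⁻¹ * g * x.out, hx⟩ * y.out : U)) : G) := by
        show _ = ((y.out : U) : G)⁻¹ * (x.out⁻¹ * g * x.out) * ((y.out : U) : G)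
        group
      rw [h1, ext_up, extC_mem U _ (Subtype.prop _)]
    · rw [extC_not_mem U _ hx]
      symm
      refine Finset.sum_eq_zero fun y _ => ?_
      simp only
      rw [ext_up, extC_not_mem]
      intro h
      apply hx
      have h1 := U.mul_mem (U.mul_mem (y.out).2 h) (U.inv_mem (y.out).2)
      have h2 : ((y.out : U) : G) * ((x.out * ((y.out : U) : G))⁻¹ * g *
          (x.out * ((y.out : U) : G))) * ((y.out : U) : G)⁻¹ = x.out⁻¹ * g * x.out := by group
      rwa [h2] at h1
  · rintro ⟨x, y⟩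
    simp only
    have h1 : (x.out * ((y.out : U) : G))⁻¹ * (E' (x, y)).out ∈ V.map U.subtype := by
      rw [← QuotientGroup.eq, QuotientGroup.out_eq']
      rfl
    have h2 := ext_conj (V.map U.subtype) (up U V ψ)
      ((x.out * ((y.out : U) : G))⁻¹ * g * (x.out * ((y.out : U) : G))) h1
    rw [← h2]
    congr 1
    group

end Pool.Agent.Y951.SE
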