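import Pool.Agent.Y951.SE.Fin
import Pool.Agent.Y951.SE.Trans
import Pool.Agent.Y691.ST.ProfOne

/-!
# The exponent bound for open subgroups of profinite groups
-/

set_option autoImplicit false

namespace Pool.Agent.Y951.SE

open Pool.Agent.Y144.DL Pool.Agent.Y691.ST

variable {G : Type} [Group G] [TopologicalSpace G]

lemma indC_add (U : Subgroup G) [Finite (G ⧸ U)] (θ θ' : U → ℂ) :
    indC U (θ + θ') = indC U θ + indC U θ' := by
  classical
  have := Fintype.ofFinite (G ⧸ U)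
  funext g
  unfold indC
  rw [Pi.add_apply, finsum_eq_sum_of_fintype, finsum_eq_sum_of_fintype, finsum_eq_sum_of_fintype,
    ← Finset.sum_add_distrib]
  refine Finset.sum_congr rfl fun x _ => ?_
  by_cases h : x.out⁻¹ * g * x.out ∈ U
  · rw [extC_mem U _ h, extC_mem U _ h, extC_mem U _ h]
    rfl
  · rw [extC_not_mem U _ h, extC_not_mem U _ h, extC_not_mem U _ h, add_zero]

/-- the homomorphism from the preimage of a subgroup -/
def resMap' {A B : Type*} [Group A] [Group B] (f : A →* B) (K : Subgroup B) : K.comap f →* K :=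
  (f.comp (K.comap f).subtype).codRestrict K fun x => x.2

/-- the preimage of the image of `V` -/
def sat {A B : Type*} [Group A] [Monoid B] (ρ : A →* B) (V : Subgroup A) : Subgroup A where
  carrier := {u | ∃ v : V, ρ v = ρ u}
  one_mem' := ⟨1, rfl⟩
  mul_mem' := by
    rintro a b ⟨v, hv⟩ ⟨w, hw⟩
    refine ⟨v * w, ?_⟩
    rw [Subgroup.coe_mul, map_mul, map_mul, hv, hw]
  inv_mem' := by
    rintro a ⟨v, hv⟩
    refine ⟨v⁻¹, ?_⟩
    have h1 : ρ ((v : A)⁻¹) * ρ v = 1 := by rw [← map_mul, inv_mul_cancel, map_one]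
    have h2 : ρ a * ρ a⁻¹ = 1 := by rw [← map_mul, mul_inv_cancel, map_one]
    rw [hv] at h1
    show ρ ((v : A)⁻¹) = ρ a⁻¹
    exact left_inv_eq_right_inv h1 h2

/-- a linear character of `V` which is trivial on the kernel of `ρ` extends to `V · ker ρ` -/
theorem exists_extend {A B : Type*} [Group A] [Monoid B] (ρ : A →* B) (V : Subgroup A)
    (ψ : V →* ℂˣ) (hψ : ∀ v : V, ρ v = 1 → ψ v = 1) :
    ∃ χ' : sat ρ V →* ℂˣ, ∀ (u : sat ρ V) (v : V), ρ v = ρ u → χ' u = ψ v := by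
  classical
  have key : ∀ v w : V, ρ v = ρ w → ψ v = ψ w := by
    intro v w h
    have h1 : ρ ((v * w⁻¹ : V) : A) = 1 := by
      rw [Subgroup.coe_mul, map_mul, h, ← map_mul, Subgroup.coe_inv, mul_inv_cancel, map_one]
    have h2 := hψ _ h1
    rw [map_mul, map_inv, mul_inv_eq_one] at h2
    exact h2
  choose s hs using fun u : sat ρ V => u.2
  refine ⟨MonoidHom.mk' (fun u => ψ (s u)) ?_, ?_⟩
  · intro a b
    rw [← map_mul]
    refine key _ _ ?_
    rw [hs, Subgroup.coe_mul, Subgroup.coe_mul, map_mul, map_mul, hs, hs]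
  · intro u v h
    show ψ (s u) = ψ v
    refine key _ _ ?_
    rw [hs, h]

variable [IsTopologicalGroup G] [CompactSpace G] [TotallyDisconnectedSpace G] [T2Space G]

/-- **The exponent bound.** -/
theorem prof_exp {c : G} (hz : ∀ g, g * c = c * g → g = 1 ∨ g = c) (hcc : c * c = 1)
    (hc : c ≠ 1) {d : (G → ℂ) → ℂˣ} (hd : IsDef' d)
    (good : ∀ (U : Subgroup G) (χ : U →* ℂˣ), IsOpenLinear U χ → (∀ g, g * c * g⁻¹ ∉ U) →
      d (indF U χ) = 1) (e₀ : G →* ℂˣ) (he₀ : IsOpen (e₀.ker : Set G)) (he2 : ∀ g, e₀ g ^ 2 = 1)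
    (hec : e₀ c = -1) {U : Subgroup G} (hU : IsOpen (U : Set G)) {n : ℕ}
    (ρ : U →* Matrix (Fin n) (Fin n) ℂ) (hρ : IsOpen {u | ρ u = 1}) {k : ℕ}
    (hb : ∀ (V : Subgroup U) (χ : V →* ℂˣ), (∀ u, ρ u = 1 → u ∈ V) →
      (∃ (u : U) (g : G), (u : G) = g * c * g⁻¹ ∧ u ∈ V) → (∀ v : V, ρ v = 1 → χ v = 1) →
      (∃ j : ℕ, χ ^ 2 ^ j = 1) → χ ^ 2 ^ (k + 1) = 1) :
    d (indC U (fun u => (ρ u).trace)) ^ 2 ^ k = 1 := by
  classical
  have hfinU : Finite (G ⧸ U) := Subgroup.quotient_finite_of_isOpen U hU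
  have hcU : CompactSpace U :=
    isCompact_iff_compactSpace.mp (U.isClosed_of_isOpen hU).isCompact
  have hW : IsOpen (Subtype.val '' {u : U | ρ u = 1}) := hU.isOpenMap_subtype_val _ hρ
  obtain ⟨N₀, hN₀⟩ := ProfiniteGrp.exist_openNormalSubgroup_sub_open_nhds_of_one
    (hW.inter he₀) ⟨⟨1, map_one ρ, rfl⟩, map_one e₀⟩
  let N : Subgroup G := N₀.toSubgroup
  have hN : IsOpen (N : Set G) := N₀.isOpen
  have hNn : N.Normal := N₀.isNormal'
  have hNρ : ∀ u : U, (u : G) ∈ N → ρ u = 1 := by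
    intro u hu
    obtain ⟨u', h1, h2⟩ := (hN₀ hu).1
    have h3 : u' = u := Subtype.ext h2
    rw [← h3]
    exact h1
  have hNe : ∀ g ∈ N, e₀ g = 1 := fun g hg => (hN₀ hg).2
  obtain ⟨N₁, hN₁n, hN₁, hle₁, hconj₁, hsh₁⟩ := shrink hz hcc hc hN
  obtain ⟨N₂, hN₂n, hN₂, hle₂, hconj₂, hsh₂⟩ := shrink hz hcc hc hN₁
  let P : Subgroup U := N₂.subgroupOf U
  have hPn : P.Normal := inferInstance
  have hPo : IsOpen (P : Set U) := hN₂.preimage continuous_subtype_val
  have hfin : Finite (U ⧸ P) := Subgroup.quotient_finite_of_isOpen P hPo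
  set π := QuotientGroup.mk' P with hπ
  have hsurj : Function.Surjective π := QuotientGroup.mk'_surjective P
  let M : Subgroup (U ⧸ P) := ρ.ker.map π
  let M₁ : Subgroup (U ⧸ P) := (N₁.subgroupOf U).map π
  have hMn : M.Normal := Subgroup.Normal.map inferInstance π hsurj
  have hM₁n : M₁.Normal := Subgroup.Normal.map inferInstance π hsurj
  have hker : π.ker = P := QuotientGroup.ker_mk' P
  have hmem : ∀ (V : Subgroup U), P ≤ V → ∀ g, π g ∈ V.map π ↔ g ∈ V := by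
    intro V hV g
    rw [← Subgroup.mem_comap, Subgroup.comap_map_eq_self (by rw [hker]; exact hV)]
  have hPρ : P ≤ ρ.ker := fun u hu => hNρ u (hle₁ (hle₂ hu))
  have hmM : ∀ g, π g ∈ M ↔ ρ g = 1 := fun g => hmem ρ.ker hPρ g
  have hmM₁ : ∀ g : U, π g ∈ M₁ ↔ (g : G) ∈ N₁ := by
    intro g
    have := hmem (N₁.subgroupOf U) (fun u hu => hle₂ hu) g
    exact this
  let S : Set (U ⧸ P) := {q | ∃ (u : U) (x : G), (u : G) = x * c * x⁻¹ ∧ π u = q}
  have hS : Sig M M₁ S := by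
    refine ⟨?_, ?_, ?_, ?_, ?_, ?_⟩
    · rintro _ ⟨u, x, hu, rfl⟩ g
      obtain ⟨v, rfl⟩ := hsurj g
      refine ⟨v * u * v⁻¹, v * x, ?_, ?_⟩
      · show (v : G) * u * (v : G)⁻¹ = _
        rw [hu]
        group
      · rw [map_mul, map_mul, map_inv]
    · rintro _ ⟨u, x, hu, rfl⟩
      rw [← map_mul]
      have h1 : u * u = 1 := by
        apply Subtype.ext
        show (u : G) * u = 1
        rw [hu]
        have h2 : x * c * x⁻¹ * (x * c * x⁻¹) = x * (c * c) * x⁻¹ := by group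
        rw [h2, hcc, mul_one, mul_inv_cancel]
      rw [h1, map_one]
    · rintro _ ⟨u, x, hu, rfl⟩ h
      have h1 := (hmM₁ _).mp h
      rw [hu] at h1
      exact hconj₁ x h1
    · rintro _ ⟨u, x, hu, rfl⟩ g h
      obtain ⟨v, rfl⟩ := hsurj g
      rw [← map_mul, ← map_mul] at h
      rw [← map_mul, hmM₁, hmM₁]
      have h1 : ((v * u)⁻¹ * (u * v) : U) ∈ P := QuotientGroup.eq.1 h
      have h1' : (((v : G) * (x * c * x⁻¹))⁻¹ * (x * c * x⁻¹ * (v : G))) ∈ N₂ := by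
        rw [← hu]
        exact h1
      have h2 : c * ((x⁻¹ * (v : G)⁻¹ * x) * c * (x⁻¹ * (v : G)⁻¹ * x)⁻¹) ∈ N₂ := by
        have h3 := hN₂n.conj_mem _ h1' x⁻¹
        have h4 : x⁻¹ * (((v : G) * (x * c * x⁻¹))⁻¹ * (x * c * x⁻¹ * (v : G))) * x⁻¹⁻¹ =
            c⁻¹ * ((x⁻¹ * (v : G)⁻¹ * x) * c * (x⁻¹ * (v : G)⁻¹ * x)⁻¹) := by group
        rw [h4, inv_eq_of_mul_eq_one_left hcc] at h3
        exact h3
      rcases hsh₂ _ h2 with h5 | h5
      · left
        have h6 := hN₁n.conj_mem _ (N₁.inv_mem h5) x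
        have h7 : x * (x⁻¹ * (v : G)⁻¹ * x)⁻¹ * x⁻¹ = v := by group
        rwa [h7] at h6
      · right
        have h6 := hN₁n.conj_mem _ (N₁.inv_mem h5) (x * c)
        have h7 : x * c * (c * (x⁻¹ * (v : G)⁻¹ * x))⁻¹ * (x * c)⁻¹ =
            x * c * x⁻¹ * v * (x * (c⁻¹ * c⁻¹) * x⁻¹) := by
          group
        have h8 : c⁻¹ * c⁻¹ = 1 := by
          rw [← mul_inv_rev, hcc, inv_one]
        rw [h7, h8, mul_one, mul_inv_cancel, mul_one] at h6
        show (u : G) * v ∈ N₁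
        rw [hu]
        exact h6
    · rintro _ ⟨u, x, hu, rfl⟩ g h
      obtain ⟨v, rfl⟩ := hsurj g
      rw [← map_inv, ← map_mul, ← map_mul, ← map_mul, hmM₁] at h
      rw [← map_mul, hmM, hmM]
      have h' : x * c * x⁻¹ * ((v : G) * (x * c * x⁻¹) * (v : G)⁻¹) ∈ N₁ := by
        rw [← hu]
        exact h
      have h2 : c * ((x⁻¹ * (v : G) * x) * c * (x⁻¹ * (v : G) * x)⁻¹) ∈ N₁ := by
        have h3 := hN₁n.conj_mem _ h' x⁻¹
        have h4 : x⁻¹ * (x * c * x⁻¹ * ((v : G) * (x * c * x⁻¹) * (v : G)⁻¹)) * x⁻¹⁻¹ =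
            c * ((x⁻¹ * (v : G) * x) * c * (x⁻¹ * (v : G) * x)⁻¹) := by group
        rwa [h4] at h3
      rcases hsh₁ _ h2 with h5 | h5
      · left
        have h6 := hNn.conj_mem _ h5 x
        have h7 : x * (x⁻¹ * (v : G) * x) * x⁻¹ = v := by group
        rw [h7] at h6
        exact hNρ v h6
      · right
        have h6 := hNn.conj_mem _ h5 x
        have h7 : x * (c * (x⁻¹ * (v : G) * x)) * x⁻¹ = x * c * x⁻¹ * v := by group
        rw [h7, ← hu] at h6
        exact hNρ (u * v) h6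
    · refine Subgroup.map_mono fun u hu => hNρ u (hle₁ hu)
  -- the character on the double quotient
  let ρ₁ : U ⧸ P →* Matrix (Fin n) (Fin n) ℂ := QuotientGroup.lift P ρ hPρ
  have hρ2 : M ≤ ρ₁.ker := by
    rintro _ ⟨g, hg, rfl⟩
    exact hg
  let ρ₂ : (U ⧸ P) ⧸ M →* Matrix (Fin n) (Fin n) ℂ := QuotientGroup.lift M ρ₁ hρ2
  let θ₂ : (U ⧸ P) ⧸ M → ℂ := fun g => (ρ₂ g).trace
  have hθ₂ : IsChar θ₂ := ⟨n, ρ₂, rfl⟩
  let Y : (U ⧸ P → ℂ) → ℂˣ := fun f => d (indC U (f ∘ π))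
  have hY : ∀ θ θ', IsChar θ → IsChar θ' → Y (θ + θ') = Y θ * Y θ' := by
    intro θ θ' h h'
    show d (indC U ((θ + θ') ∘ π)) = _
    have h1 : (θ + θ') ∘ π = θ ∘ π + θ' ∘ π := rfl
    rw [h1, indC_add]
    exact hd.add _ _ (isArtin_ind hU (isArtin_comp hPo h)) (isArtin_ind hU (isArtin_comp hPo h'))
  have hYθ : Y (θ₂ ∘ QuotientGroup.mk' M) = d (indC U (fun g => (ρ g).trace)) := rfl
  have hup : ∀ (K : Subgroup (U ⧸ P)) (χ : K →* ℂˣ),
      Y (ind K χ) = d (indF ((K.comap π).map U.subtype) (up U (K.comap π) (infl P K χ))) := by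
    intro K χ
    obtain ⟨hV1, -⟩ := isOpenLinear_iff.mp (isOpenLinear_infl hPo K χ)
    have hfV : Finite (U ⧸ K.comap π) := Subgroup.quotient_finite_of_isOpen _ hV1
    have h1 : ind K χ ∘ π = indF (K.comap π) (infl P K χ) := ind_infl P K χ
    show d (indC U (ind K χ ∘ π)) = _
    rw [h1]
    exact congrArg d (indC_indF U (K.comap π) (infl P K χ))
  have hopen : ∀ K : Subgroup (U ⧸ P), IsOpen (((K.comap π).map U.subtype : Subgroup G) : Set G) := by
    intro K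
    obtain ⟨hV1, -⟩ := isOpenLinear_iff.mp (isOpenLinear_infl hPo K 1)
    exact hU.isOpenMap_subtype_val _ hV1
  have hG : ∀ (K : Subgroup (U ⧸ P)) (χ : K →* ℂˣ), (∀ s ∈ S, s ∉ K) → Y (ind K χ) = 1 := by
    intro K χ hK
    rw [hup]
    refine good _ _ ?_ ?_
    · rw [isOpenLinear_iff]
      refine ⟨hopen K, ?_⟩
      -- the kernel contains an open subgroup
      have h1 : {u : (K.comap (QuotientGroup.mk' P)).map U.subtype |
          up U (K.comap (QuotientGroup.mk' P)) (infl P K χ) u = 1} =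
          (((up U (K.comap (QuotientGroup.mk' P)) (infl P K χ)).ker : Subgroup _) : Set _) := by
        ext u
        rfl
      rw [h1]
      have h2 : IsOpen ((N₂.subgroupOf ((K.comap (QuotientGroup.mk' P)).map U.subtype) :
          Subgroup _) : Set ((K.comap (QuotientGroup.mk' P)).map U.subtype)) :=
        hN₂.preimage continuous_subtype_val
      refine isOpen_of_le h2 fun v hv => ?_
      rw [MonoidHom.mem_ker]
      obtain ⟨w, hw⟩ := (Subgroup.equivMapOfInjective (K.comap (QuotientGroup.mk' P)) U.subtype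
        U.subtype_injective).surjective v
      have h3 : up U (K.comap (QuotientGroup.mk' P)) (infl P K χ) v = infl P K χ w := by
        rw [← hw]
        show infl P K χ ((Subgroup.equivMapOfInjective _ U.subtype U.subtype_injective).symm _) = _
        rw [MulEquiv.symm_apply_apply]
      rw [h3]
      have h4 : ((w : U) : G) ∈ N₂ := by
        have h5 : ((v : (K.comap (QuotientGroup.mk' P)).map U.subtype) : G) ∈ N₂ := hv
        rw [← hw] at h5
        exact h5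
      have h6 : QuotientGroup.mk' P (w : U) = 1 := by
        rw [← MonoidHom.mem_ker, QuotientGroup.ker_mk']
        exact h4
      show χ _ = 1
      have h7 : ((QuotientGroup.mk' P).comp (K.comap (QuotientGroup.mk' P)).subtype).codRestrict K
          (fun x => x.2) w = 1 := Subtype.ext h6
      rw [h7, map_one]
    · rintro g ⟨u, hu, hug⟩
      exact hK _ ⟨u, g, hug, rfl⟩ hu
  have hQ : ∀ (K : Subgroup (U ⧸ P)) (χ : K →* ℂˣ), χ ^ 2 = 1 → Y (ind K χ) = 1 := by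
    refine quad_of_one Y hY fun K => ?_
    rw [hup]
    have h1 : up U (K.comap π) (infl P K 1) = 1 := rfl
    rw [h1]
    exact hd.one _ (hopen K)
  let ε₀ : U ⧸ P →* ℂˣ := QuotientGroup.lift P (e₀.comp U.subtype)
    (fun u hu => hNe _ (hle₁ (hle₂ hu)))
  have hε : ∀ q, ε₀ q ^ 2 = 1 := by
    intro q
    obtain ⟨u, rfl⟩ := hsurj q
    exact he2 u
  have hεS : ∀ s ∈ S, ε₀ s = -1 := by
    rintro _ ⟨u, x, hu, rfl⟩
    show e₀ (u : G) = -1
    rw [hu, map_mul, map_mul, hec, map_inv, mul_comm (e₀ x), mul_inv_cancel_right]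
  obtain ⟨l, hl, hl1⟩ := fin_pow Y hS hY hQ hG ε₀ hε hεS hθ₂ (k := k) (by
    rintro K χ ⟨_, ⟨u, x, hu, rfl⟩, huK⟩ hχ ⟨j, hj⟩
    -- the character of `V = π⁻¹ K · ker ρ`
    obtain ⟨χ', hχ'⟩ := exists_extend ρ (K.comap π) ((χ.comp (resMap' π K))) (by
      intro v hv
      refine hχ _ ?_
      exact (hmM _).2 hv)
    have h1 : ∀ i : ℕ, χ ^ i = 1 ↔ χ' ^ i = 1 := by
      intro i
      constructor
      · intro h
        refine MonoidHom.ext fun v => ?_
        obtain ⟨v₀, hv₀⟩ := v.2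
        rw [MonoidHom.pow_apply, hχ' v v₀ hv₀]
        have h2 := congrArg (fun f : K →* ℂˣ => f (resMap' π K v₀)) h
        exact h2
      · intro h
        refine MonoidHom.ext fun q => ?_
        obtain ⟨v, hv⟩ := hsurj q
        have hvK : v ∈ K.comap π := by
          rw [Subgroup.mem_comap, hv]
          exact q.2
        have hq : q = resMap' π K ⟨v, hvK⟩ := Subtype.ext hv.symm
        have h3 := hχ' ⟨v, ⟨⟨v, hvK⟩, rfl⟩⟩ ⟨v, hvK⟩ rfl
        have h2 := congrArg (fun f : _ →* ℂˣ => f ⟨v, ⟨⟨v, hvK⟩, rfl⟩⟩) h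
        rw [MonoidHom.pow_apply, hq]
        have h4 : χ' ⟨v, ⟨⟨v, hvK⟩, rfl⟩⟩ ^ i = 1 := h2
        rw [h3] at h4
        exact h4
    rw [h1]
    refine hb _ χ' ?_ ⟨u, x, hu, ⟨⟨u, huK⟩, rfl⟩⟩ ?_ ⟨j, (h1 _).1 hj⟩
    · intro v hv
      refine ⟨⟨1, (K.comap π).one_mem⟩, ?_⟩
      rw [hv]
      exact map_one ρ
    · intro v hv
      rw [hχ' v ⟨1, (K.comap π).one_mem⟩ (by rw [hv]; exact map_one ρ)]
      exact map_one _)
  rw [hYθ] at hl1
  have hodd : ∀ p : ℕ, p.Prime → p ≠ 2 → ∃ l : ℕ, ¬ p ∣ l ∧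
      d (indC U (fun g => (ρ g).trace)) ^ l = 1 := by
    intro p hp h2
    rw [← hYθ]
    exact fin_odd Y hS hY hQ hG hθ₂ hp h2
  rw [← orderOf_eq_one_iff]
  by_contra h4
  obtain ⟨p, hp, hpd⟩ := Nat.exists_prime_and_dvd h4
  by_cases h5 : p = 2
  · subst h5
    exact hl (hpd.trans (orderOf_dvd_of_pow_eq_one hl1))
  · obtain ⟨m', hm', hm1⟩ := hodd p hp h5
    refine hm' (hpd.trans (orderOf_dvd_of_pow_eq_one ?_))
    rw [← pow_mul, mul_comm, pow_mul, hm1, one_pow]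

end Pool.Agent.Y951.SE
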