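import Pool.Agent.Y951.SE.Defs
import Pool.Agent.Y951.SE.Prof

/-!
# The exponent bound for the absolute Galois group of the rational numbers
-/

set_option autoImplicit false

namespace Pool.Agent.Y951.SE

open Pool.Agent.Y144.DL Pool.Agent.Y691.ST

/-- the quadratic character of `ℚ(√-1)` -/
theorem exists_sign {c : GalQ} {φ : Qbar →+* ℂ} (hφ : ∀ x, φ (c x) = (starRingEnd ℂ) (φ x)) :
    ∃ e₀ : GalQ →* ℂˣ, IsOpen (e₀.ker : Set GalQ) ∧ (∀ g, e₀ g ^ 2 = 1) ∧ e₀ c = -1 := by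
  classical
  obtain ⟨i, hi, hci⟩ := exists_I hφ
  have hi0 : i ≠ 0 := by
    rintro rfl
    rw [mul_zero] at hi
    exact one_ne_zero (neg_eq_zero.mp hi.symm)
  have hne : -i ≠ i := by
    intro h
    have h2 : (2 : Qbar) * i = 0 := by linear_combination -h
    exact hi0 ((mul_eq_zero.mp h2).resolve_left two_ne_zero)
  have hval : ∀ g : GalQ, g i = i ∨ g i = -i := by
    intro g
    have h1 : g i * g i = -1 := by rw [← map_mul, hi, map_neg, map_one]
    have h2 : (g i - i) * (g i + i) = 0 := by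
      have h4 : (g i - i) * (g i + i) = g i * g i - i * i := by ring
      rw [h4, h1, hi, sub_self]
    rcases mul_eq_zero.mp h2 with h5 | h5
    · exact Or.inl (sub_eq_zero.mp h5)
    · exact Or.inr (eq_neg_of_add_eq_zero_left h5)
  have hmul : ∀ g h : GalQ, (if (g * h) i = i then (1 : ℂˣ) else -1) =
      (if g i = i then (1 : ℂˣ) else -1) * (if h i = i then (1 : ℂˣ) else -1) := by
    intro g h
    have h0 : (g * h) i = g (h i) := rfl
    rw [h0]
    rcases hval h with hh | hh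
    · rw [hh, if_pos rfl, mul_one]
    · rw [hh, map_neg, if_neg hne]
      rcases hval g with hg | hg
      · rw [hg, if_neg hne, if_pos rfl, one_mul]
      · rw [hg, neg_neg, if_pos rfl, if_neg hne]
        simp
  let e₀ : GalQ →* ℂˣ := MonoidHom.mk' (fun g => if g i = i then (1 : ℂˣ) else -1) hmul
  have he : ∀ g, e₀ g = if g i = i then (1 : ℂˣ) else -1 := fun g => rfl
  refine ⟨e₀, ?_, ?_, ?_⟩
  · have hint : IsIntegral ℚ i := Algebra.IsIntegral.isIntegral i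
    have := IntermediateField.adjoin.finiteDimensional hint
    have ho := IntermediateField.fixingSubgroup_isOpen (IntermediateField.adjoin ℚ {i})
    refine isOpen_of_le ho fun g hg => ?_
    rw [MonoidHom.mem_ker, he, if_pos]
    rw [IntermediateField.mem_fixingSubgroup_iff] at hg
    exact hg i (IntermediateField.mem_adjoin_simple_self ℚ i)
  · intro g
    rw [he]
    split_ifs <;> simp
  · rw [he, hci, if_neg hne]

/-- **The exponent bound.** -/
theorem exp_bound {d : (GalQ → ℂ) → ℂˣ} {D : (U : Subgroup GalQ) → (U → ℂ) → ℂˣ} (hd : IsDef' d)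
    (hind : ∀ (U : Subgroup GalQ) (θ : U → ℂ), IsOpen (U : Set GalQ) → IsArtin θ →
      D U θ = d (indC U θ)) (h : HoldsLinear TotallyComplex D) {U : Subgroup GalQ}
    (hU : IsOpen (U : Set GalQ)) {n : ℕ} (ρ : U →* Matrix (Fin n) (Fin n) ℂ)
    (hρ : IsOpen {u | ρ u = 1}) {k : ℕ} (hk : NoRealCyclic ρ k) :
    D U (fun u => (ρ u).trace) ^ 2 ^ k = 1 := by
  obtain ⟨c, φ, hφ, hconj⟩ := exists_conjugation
  obtain ⟨e₀, h1, h2, h3⟩ := exists_sign hφ
  have hz := fun g (h : g * c = c * g) => centralizer hφ h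
  rw [hind U _ hU ⟨n, ρ, hρ, rfl⟩]
  refine prof_exp hz (conj_sq hφ) (conj_ne_one hφ) hd ?_ e₀ h1 h2 h3 hU ρ hρ ?_
  · intro V χ hχ hV
    obtain ⟨h4, h5⟩ := isOpenLinear_iff.mp hχ
    rw [← indC_lin, ← hind V _ h4 (isArtin_lin h5)]
    refine h V χ h4 h5 fun c' hc' => ?_
    obtain ⟨g, rfl⟩ := hconj c' hc'
    exact hV g
  · rintro V χ hV ⟨u, g, hug, huV⟩ hχ hj
    refine hk V (fun u hu => hV u hu) ⟨u, huV, ?_⟩ χ (fun v hv => hχ v hv) hj
    -- a conjugate of a complex conjugation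
    refine ⟨φ.comp ((g⁻¹ : GalQ) : Qbar →+* Qbar), fun x => ?_⟩
    rw [hug]
    show φ (g⁻¹ (g (c (g⁻¹ x)))) = (starRingEnd ℂ) (φ (g⁻¹ x))
    have h6 : g⁻¹ (g (c (g⁻¹ x))) = c (g⁻¹ x) := by
      have h7 : (g⁻¹ * g) (c (g⁻¹ x)) = c (g⁻¹ x) := by
        rw [inv_mul_cancel]
        rfl
      exact h7
    rw [h6, hφ]

/-- groups without elements of order `2^(k+2)` -/
theorem noRealCyclic_of_order {U : Subgroup GalQ} {n : ℕ} (ρ : U →* Matrix (Fin n) (Fin n) ℂ)
    {k : ℕ} (h : ∀ u, ¬ 2 ^ (k + 2) ∣ orderOf (ρ u)) : NoRealCyclic ρ k := by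
  rintro V - - χ hχ ⟨j, hj⟩
  refine MonoidHom.ext fun v => ?_
  show χ v ^ 2 ^ (k + 1) = 1
  have h1 : χ v ^ 2 ^ j = 1 := congrArg (fun f : V →* ℂˣ => f v) hj
  have h2 : orderOf (χ v) ∣ orderOf (ρ v) := by
    apply orderOf_dvd_of_pow_eq_one
    rw [← map_pow]
    refine MonoidHom.mem_ker.mp (hχ ?_)
    rw [Subgroup.mem_subgroupOf, Subgroup.coe_pow, MonoidHom.mem_ker, map_pow, pow_orderOf_eq_one]
  obtain ⟨a, -, ha2⟩ := (Nat.dvd_prime_pow Nat.prime_two).1 (orderOf_dvd_of_pow_eq_one h1)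
  have h3 : a ≤ k + 1 := by
    by_contra hcon
    push Not at hcon
    apply h v
    refine dvd_trans ?_ h2
    rw [ha2]
    exact pow_dvd_pow 2 (by omega)
  apply orderOf_dvd_iff_pow_eq_one.mp
  rw [ha2]
  exact pow_dvd_pow 2 h3

/-- both forms of the condition -/
theorem exp_bound' {d : (GalQ → ℂ) → ℂˣ} {D : (U : Subgroup GalQ) → (U → ℂ) → ℂˣ} (hd : IsDef' d)
    (hind : ∀ (U : Subgroup GalQ) (θ : U → ℂ), IsOpen (U : Set GalQ) → IsArtin θ →
      D U θ = d (indC U θ)) (h : HoldsLinear TotallyComplex D) {U : Subgroup GalQ} {n : ℕ}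
    (ρ : U →* Matrix (Fin n) (Fin n) ℂ) (hρ : IsOpenRep ρ) {k : ℕ}
    (hk : NoRealCyclic ρ k ∨ NoElement ρ k) : D U (character ρ) ^ 2 ^ k = 1 := by
  rcases hk with hk | hk
  · exact exp_bound hd hind h hρ.1 ρ hρ.2 hk
  · exact exp_bound hd hind h hρ.1 ρ hρ.2 (noRealCyclic_of_order ρ hk)

lemma isDef'_of_defect {d : (GalQ → ℂ) → ℂˣ} {D : (U : Subgroup GalQ) → (U → ℂ) → ℂˣ}
    (hD : IsDefect d D) : IsDef' d := by
  refine ⟨hD.add, fun V hV => ?_⟩
  have h1 : IsOpen {u : V | (1 : V →* ℂˣ) u = 1} := by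
    have h2 : {u : V | (1 : V →* ℂˣ) u = 1} = Set.univ := by
      ext u
      simp
    rw [h2]
    exact isOpen_univ
  have h3 : (1 : V →* ℂˣ) ^ 2 = 1 := by
    refine MonoidHom.ext fun x => ?_
    show (1 : ℂˣ) ^ 2 = 1
    exact one_pow 2
  refine hD.rational _ ?_ (rational_indF (Subgroup.quotient_finite_of_isOpen V hV) h3)
  rw [← indC_lin]
  exact isArtin_ind hV (isArtin_lin h1)

end Pool.Agent.Y951.SE
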